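import Pool.Agent.Y560.TF.Stm

/-!
# Project TF (helper560): fewness passes to the structure with names outside a class
-/

set_option autoImplicit false

namespace Pool.Agent.Y319.TF

open Set MeasureTheory
open Pool.Agent.H899R2.VP (St Adj PIso BF IsoOn idOn inv comp zipSet)
open Pool.Agent.H533R2.VO (RS lift put OS Ic RIso Dich VC BlkV S_FINAL)
open Pool.Agent.H566P (ar R2 v2 a0 a1 lt ac co mk S_ACC S_MSG)
open Pool.Agent.Y560.TG (acc msg lt_mk ac_mk co_mk R2_ext piso_iff riso_iff riso_isoOn meas_lt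
  meas_ac meas_co meas_into cont_into piso_lt piso_ac piso_co piso_eq ex lt_ex ac_ex co_ex_even
  co_ex_odd piso_ex orb orb_ex Nm Off Sm Thin Few bf_trans0 bf_symm0 iso_trans0 iso_symm0
  iso_refl0 S_EXT S_GL S_MAT S_BP mat pick Se)
open Pool.Agent.Y560.TF

open Classical in
theorem t_K1 (hN : S_NFEW) (hO : S_OFF) (hI : S_FILI) (hT : S_TRQ) (hG : S_GEO) : S_K1 := by
  intro Γ _ g hg R y z β hMB hyz hω hβ hfew
  have G := hG Γ g hg R hMB
  have hI' := fun V V' q => hI Γ g hg R V V' y z q hMB hyz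
  obtain ⟨E, hE⟩ : ∃ E, E = Ob R y z := ⟨_, rfl⟩
  rw [← hE] at hI' ⊢
  have hyE : y ∉ E := by
    rw [hE]
    exact fun h => hyz ((G.out y z).1.1 h)
  have hzE : z ∈ E := by rw [hE]; exact G.self y z
  have hinv : ∀ n x z, ac R n x z → (x ∈ E ↔ z ∈ E) := by
    intro n x w h
    rw [hE]
    exact G.inv n y z x w h
  refine hN R E y β {V | Off E R V ∧ BF (lift R) (lift V) univ univ β (idOn Eᶜ) ∧
    ∃ m, m ∉ E ∧ IsoOn (lift (lb V y)) (lift (lb R y)) E (Ob R y m) ∅} hyE hω hβ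
    hfew ?_ ?_
  · refine ⟨fun m => if h : ∃ V, Off E R V ∧ BF (lift R) (lift V) univ univ β (idOn Eᶜ) ∧
      IsoOn (lift (lb V y)) (lift (lb R y)) E (Ob R y m) ∅ then h.choose else R, ?_⟩
    rintro V ⟨hV1, hV3, m, hm, hV2⟩
    have hex : ∃ V, Off E R V ∧ BF (lift R) (lift V) univ univ β (idOn Eᶜ) ∧
      IsoOn (lift (lb V y)) (lift (lb R y)) E (Ob R y m) ∅ := ⟨V, hV1, hV3, hV2⟩
    refine ⟨m, ?_⟩
    simp only
    rw [dif_pos hex]
    have h1 := hI' hex.choose V ∅ hex.choose_spec.1 hV1 (hex.choose_spec.2.1.mono hω)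
      (hV3.mono hω) (iso_trans0 hex.choose_spec.2.2 (iso_symm0 hV2))
    rw [Set.empty_union] at h1
    exact h1
  · intro V V' hbad hoff hoff' hbf hbf' hiso
    obtain ⟨-, -, qa, -, -, -⟩ := hO Γ g hg R V E hMB hinv hoff (hbf.mono hω)
    obtain ⟨-, -, qa', qb', -, qc'⟩ := hO Γ g hg R V' E hMB hinv hoff' (hbf'.mono hω)
    have hOb : Ob V y z = E := qa y z hyz hE z hzE
    obtain ⟨q, hq1, hq2, hq3, hq4, hq5⟩ := hiso
    obtain ⟨w, hw⟩ := hq4 z (mem_univ _)
    have hyy : (y, y) ∈ q := hq1 rfl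
    have h4 := (hT.2.2.2.1 V V' q y y z w ⟨q, Subset.rfl, hq2, hq3, hq4, hq5⟩ hyy hw).mono
      (empty_subset _)
    rw [hOb] at h4
    by_cases hwE : w ∈ E
    · have h5 : Ob V' y w = E := qa' y z hyz hE w hwE
      rw [h5] at h4
      have h6 := hI' V V' ∅ hoff hoff' (hbf.mono hω) (hbf'.mono hω) h4
      rw [Set.empty_union] at h6
      exact h6
    · exfalso
      have hdis : ∀ x, x ∈ Ob R y w → x ∉ E := by
        intro x hx hxE
        apply hwE
        rw [hE] at hxE ⊢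
        rw [← G.eqv y z x hxE, G.eqv y w x hx]
        exact G.self y w
      have h5 : Ob V' y w = Ob R y w :=
        qb' y w hyE hwE (Set.disjoint_left.2 fun x hx => hdis x hx)
      rw [h5] at h4
      apply hbad
      refine ⟨hoff, hbf, w, hwE, iso_trans0 h4 ?_⟩
      refine ⟨idOn (Ob R y w), empty_subset _, ?_, ?_, fun x hx => ⟨x, rfl, hx⟩,
        fun x hx => ⟨x, rfl, hx⟩⟩
      · rintro ⟨u, v⟩ ⟨h6, h7⟩
        simp only at h6 h7
        subst h6
        exact ⟨h7, h7⟩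
      · unfold lb
        rw [piso_ex]
        refine ⟨piso_iff.2 ⟨?_, ?_, ?_, ?_⟩, ?_⟩
        · rintro ⟨u, u'⟩ ⟨h6, _⟩ ⟨v, v'⟩ ⟨h7, _⟩
          simp only at h6 h7
          subst h6 h7
          exact Iff.rfl
        · rintro ⟨u, u'⟩ ⟨h6, h8⟩ ⟨v, v'⟩ ⟨h7, _⟩
          simp only at h6 h7 h8
          subst h6 h7
          exact hoff'.1 u v (fun h => hdis u h8 h.1)
        · rintro n ⟨u, u'⟩ ⟨h6, h8⟩ ⟨v, v'⟩ ⟨h7, _⟩
          simp only at h6 h7 h8
          subst h6 h7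
          exact hoff'.2.1 n u v (fun h => hdis u h8 h.1)
        · rintro n ⟨u, u'⟩ ⟨h6, h8⟩
          simp only at h6 h8
          subst h6
          exact hoff'.2.2 n u (hdis u h8)
        · rintro k ⟨u, u'⟩ ⟨h6, h8⟩
          simp only at h6 h8
          subst h6
          exact qc' y u k hyE (hdis u h8)

end Pool.Agent.Y319.TF
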